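import Mathlib
import Pool.Agent.TH967.OSI.Asym

/-!
# SparseStack matrices of constant sparsity are not oblivious subspace injections

The definitions (`sgn`, `Sample`, `stack`, `sketch`, `prob`, `expect`, `IsOSI`) are in
`Pool.Agent.TH967.OSI.Defs`.
-/

open Filter Topology

namespace Pool.Agent.Results.MP_59a663_pr.ConstantSparsityFails

open Pool.Agent.TH967.OSI

/-- Fix any constants `C₁, C₂`, any `α₀ > 0` and any `η > 0`.

(1) For all large `r` and all `n ≥ r` there is an `r`-dimensional subspace `V` of `ℝ^n` such that,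
for all `ζ ≤ C₁` and all `b` with `b ζ ≤ C₂ r`, the probability that the SparseStack with `ζ`
blocks of width `b` satisfies `α₀ ‖x‖² ≤ ‖Ωᵀ x‖²` for all `x ∈ V` is at most `η`.

(2) For every `c > 0` there are `n, r` with `r ≤ c n / log n` such that no SparseStack with
`ζ ≤ C₁` and `b ζ ≤ C₂ r` is an oblivious subspace injection with parameter `α₀` and failure
probability `1/100`. -/
theorem result (C₁ C₂ α₀ η : ℝ) (hα : 0 < α₀) (hη : 0 < η) :
    (∃ r₀ : ℕ, ∀ r n : ℕ, r₀ ≤ r → r ≤ n →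
      ∃ V : Submodule ℝ (EuclideanSpace ℝ (Fin n)), Module.finrank ℝ V = r ∧
        ∀ ζ b : ℕ, 1 ≤ ζ → 1 ≤ b → (ζ : ℝ) ≤ C₁ → ((b * ζ : ℕ) : ℝ) ≤ C₂ * r →
          prob {ω : Sample n ζ b | ∀ x ∈ V, α₀ * ‖x‖ ^ 2 ≤ ‖sketch ω x‖ ^ 2} ≤ η) ∧
    (∀ c : ℝ, 0 < c → ∃ n r : ℕ, 1 ≤ r ∧ r ≤ n ∧ (r : ℝ) ≤ c * n / Real.log n ∧
      ∀ ζ b : ℕ, 1 ≤ ζ → 1 ≤ b → (ζ : ℝ) ≤ C₁ → ((b * ζ : ℕ) : ℝ) ≤ C₂ * r →
        ¬ IsOSI n ζ b r α₀ (1 / 100)) := by
  constructor
  · obtain ⟨r₀, h⟩ := main_bound C₁ C₂ α₀ η hα hη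
    exact ⟨r₀, fun r n hr hrn => ⟨coordSub r n, finrank_coordSub hrn,
      fun ζ b hζ hb h1 h2 => h r n hr hrn ζ b hζ hb h1 h2⟩⟩
  · intro c hc
    obtain ⟨r₀, h⟩ := main_bound C₁ C₂ α₀ (1 / 2) hα (by norm_num)
    have ht : Tendsto (fun n : ℕ => c * (n : ℝ) / Real.log n) atTop atTop := by
      have h1 : Tendsto (fun x : ℝ => x / Real.log x) atTop atTop := by
        have h2 : Tendsto (fun x : ℝ => Real.log x / x) atTop (𝓝[>] 0) := by
          rw [tendsto_nhdsWithin_iff]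
          constructor
          · exact Real.isLittleO_log_id_atTop.tendsto_div_nhds_zero
          · filter_upwards [eventually_gt_atTop 1] with x hx
            exact div_pos (Real.log_pos hx) (by linarith)
        have h3 := h2.inv_tendsto_nhdsGT_zero
        refine h3.congr fun x => ?_
        simp [inv_div]
      have h2 := (h1.comp tendsto_natCast_atTop_atTop).const_mul_atTop hc
      refine h2.congr fun n => ?_
      simp only [Function.comp]
      ring
    obtain ⟨n, hn1, hn2⟩ := ((tendsto_atTop.1 ht ((r₀ + 1 : ℕ) : ℝ)).and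
      (eventually_ge_atTop (r₀ + 1))).exists
    refine ⟨n, r₀ + 1, by omega, hn2, hn1, ?_⟩
    intro ζ b hζ hb h1 h2 hO
    have h3 := hO.2 (coordSub (r₀ + 1) n) (finrank_coordSub hn2)
    have h4 := h (r₀ + 1) n (by omega) hn2 ζ b hζ hb h1 h2
    linarith

end Pool.Agent.Results.MP_59a663_pr.ConstantSparsityFails
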